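import Pool.Agent.helper68.SF.SpecE

/-!
Project SF, module EB: the sup bound by the energies
-/

set_option autoImplicit false

namespace SF

open MeasureTheory Filter Topology
open scoped ContDiff

theorem EB_open : IsOpen {p : ℝ × ℝ | 0 < p.2} := isOpen_lt continuous_const continuous_snd

theorem EB_cd {f : ℝ → ℝ → ℝ → ℝ} (hf : Sm f) (s : ℝ) :
    ContDiffOn ℝ ∞ (fun p : ℝ × ℝ => f s p.1 p.2) {p | 0 < p.2} := by
  have h : ContDiff ℝ ∞ (fun p : ℝ × ℝ => (s, p.1, p.2)) :=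
    contDiff_const.prodMk (contDiff_fst.prodMk contDiff_snd)
  exact ContDiffOn.comp (t := {p : ℝ × ℝ × ℝ | 0 < p.2.2}) hf h.contDiffOn fun p hp => hp

theorem EB_diff {u : ℝ × ℝ → ℝ} (hu : ContDiffOn ℝ ∞ u {p | 0 < p.2}) {p : ℝ × ℝ} (hp : 0 < p.2) :
    DifferentiableAt ℝ u p :=
  (hu.contDiffAt (EB_open.mem_nhds hp)).differentiableAt (by simp)

theorem EB_pxd {u : ℝ × ℝ → ℝ} {p : ℝ × ℝ} (hu : DifferentiableAt ℝ u p) :
    HasDerivAt (fun t => u (t, p.2)) (px u p) p.1 := by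
  have h1 : HasDerivAt (fun t : ℝ => (t, p.2)) ((1 : ℝ), (0 : ℝ)) p.1 :=
    (hasDerivAt_id p.1).prodMk (hasDerivAt_const p.1 p.2)
  exact hu.hasFDerivAt.comp_hasDerivAt p.1 h1

theorem EB_pyd {u : ℝ × ℝ → ℝ} {p : ℝ × ℝ} (hu : DifferentiableAt ℝ u p) :
    HasDerivAt (fun t => u (p.1, t)) (py u p) p.2 := by
  have h1 : HasDerivAt (fun t : ℝ => (p.1, t)) ((0 : ℝ), (1 : ℝ)) p.2 :=
    (hasDerivAt_const p.2 p.1).prodMk (hasDerivAt_id p.2)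
  exact hu.hasFDerivAt.comp_hasDerivAt p.2 h1

theorem EB_px {f : ℝ → ℝ → ℝ → ℝ} (hf : Sm f) (s : ℝ) {p : ℝ × ℝ} (hp : 0 < p.2) :
    px (fun p : ℝ × ℝ => f s p.1 p.2) p = dX f s p.1 p.2 :=
  (EB_pxd (EB_diff (EB_cd hf s) hp)).deriv.symm

theorem EB_py {f : ℝ → ℝ → ℝ → ℝ} (hf : Sm f) (s : ℝ) {p : ℝ × ℝ} (hp : 0 < p.2) :
    py (fun p : ℝ × ℝ => f s p.1 p.2) p = dY f s p.1 p.2 :=
  (EB_pyd (EB_diff (EB_cd hf s) hp)).deriv.symm

theorem EB_pxc {u v : ℝ × ℝ → ℝ} (h : ∀ p : ℝ × ℝ, 0 < p.2 → u p = v p) {p : ℝ × ℝ} (hp : 0 < p.2) :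
    px u p = px v p := by
  have h1 : u =ᶠ[𝓝 p] v := by
    filter_upwards [EB_open.mem_nhds hp] with q hq
    exact h q hq
  unfold px
  rw [h1.fderiv_eq]

theorem EB_pyc {u v : ℝ × ℝ → ℝ} (h : ∀ p : ℝ × ℝ, 0 < p.2 → u p = v p) {p : ℝ × ℝ} (hp : 0 < p.2) :
    py u p = py v p := by
  have h1 : u =ᶠ[𝓝 p] v := by
    filter_upwards [EB_open.mem_nhds hp] with q hq
    exact h q hq
  unfold py
  rw [h1.fderiv_eq]

theorem EB_lap (hBS : BS_stmt) {f : ℝ → ℝ → ℝ → ℝ} (hf : Sm f) (hw : Wv f) (s : ℝ) {p : ℝ × ℝ}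
    (hp : 0 < p.2) : lap (fun p : ℝ × ℝ => f s p.1 p.2) p =
      (dS (dS f) s p.1 p.2 - f s p.1 p.2) / (4 * p.2 ^ 2) := by
  obtain ⟨-, hX, hY, -⟩ := hBS f hf
  unfold lap
  rw [EB_pxc (v := fun p : ℝ × ℝ => dX f s p.1 p.2) (fun q hq => EB_px hf s hq) hp,
    EB_pyc (v := fun p : ℝ × ℝ => dY f s p.1 p.2) (fun q hq => EB_py hf s hq) hp,
    EB_px hX s hp, EB_py hY s hp, hw s p.1 p.2 hp]
  field_simp
  ring

theorem EB_plap (hBS : BS_stmt) {f : ℝ → ℝ → ℝ → ℝ} (hf : Sm f) (hw : Wv f) (s : ℝ) {p : ℝ × ℝ}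
    (hp : 0 < p.2) :
    px (lap (fun p : ℝ × ℝ => f s p.1 p.2)) p =
      (dX (dS (dS f)) s p.1 p.2 - dX f s p.1 p.2) / (4 * p.2 ^ 2) ∧
    py (lap (fun p : ℝ × ℝ => f s p.1 p.2)) p =
      (dY (dS (dS f)) s p.1 p.2 - dY f s p.1 p.2) / (4 * p.2 ^ 2) -
        (dS (dS f) s p.1 p.2 - f s p.1 p.2) / (2 * p.2 ^ 3) := by
  have hSS : Sm (dS (dS f)) := (hBS _ (hBS f hf).1).1
  set u : ℝ × ℝ → ℝ := fun p => (dS (dS f) s p.1 p.2 - f s p.1 p.2) / (4 * p.2 ^ 2) with hu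
  have h1 := EB_pxc (v := u) (fun q hq => EB_lap hBS hf hw s hq) hp
  have h2 := EB_pyc (v := u) (fun q hq => EB_lap hBS hf hw s hq) hp
  have hk := EB_diff (EB_cd hSS s) hp
  have hh := EB_diff (EB_cd hf s) hp
  have hp2 : (4 * p.2 ^ 2 : ℝ) ≠ 0 := by positivity
  have hd : DifferentiableAt ℝ (fun q : ℝ × ℝ => 4 * q.2 ^ 2) p := by fun_prop
  have hnum : DifferentiableAt ℝ (fun q : ℝ × ℝ => dS (dS f) s q.1 q.2 - f s q.1 q.2) p :=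
    hk.sub hh
  have hud : DifferentiableAt ℝ u p := by
    have e0 : u = fun q : ℝ × ℝ => (dS (dS f) s q.1 q.2 - f s q.1 q.2) * (4 * q.2 ^ 2)⁻¹ := by
      funext q
      exact div_eq_mul_inv _ _
    rw [e0]
    exact hnum.mul (hd.inv hp2)
  constructor
  · rw [h1]
    have e1 := EB_pxd hud
    have e2 := ((EB_pxd hk).sub (EB_pxd hh)).div_const (4 * p.2 ^ 2)
    rw [EB_px hSS s hp, EB_px hf s hp] at e2
    exact e1.unique e2
  · rw [h2]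
    have e1 := EB_pyd hud
    have e3 : HasDerivAt (fun t : ℝ => 4 * t ^ 2) (8 * p.2) p.2 := by
      have := (hasDerivAt_pow 2 p.2).const_mul 4
      refine this.congr_deriv ?_
      norm_num
      ring
    have e2 := ((EB_pyd hk).sub (EB_pyd hh)).div e3 hp2
    rw [EB_py hSS s hp, EB_py hf s hp] at e2
    rw [e1.unique e2]
    show ((dY (dS (dS f)) s p.1 p.2 - dY f s p.1 p.2) * (4 * p.2 ^ 2) -
      (dS (dS f) s p.1 p.2 - f s p.1 p.2) * (8 * p.2)) / (4 * p.2 ^ 2) ^ 2 = _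
    field_simp
    ring

/-- the energy density -/
noncomputable def EB_e (f : ℝ → ℝ → ℝ → ℝ) (s : ℝ) (p : ℝ × ℝ) : ℝ :=
  f s p.1 p.2 ^ 2 + dX f s p.1 p.2 ^ 2 + dY f s p.1 p.2 ^ 2

theorem EB_alg (h hx hy k kx ky y : ℝ) (hy1 : 3 / 4 ≤ y) :
    h ^ 2 + hx ^ 2 + hy ^ 2 + ((k - h) / (4 * y ^ 2)) ^ 2 + ((kx - hx) / (4 * y ^ 2)) ^ 2 +
      ((ky - hy) / (4 * y ^ 2) - (k - h) / (2 * y ^ 3)) ^ 2 ≤
    20 * ((h ^ 2 + hx ^ 2 + hy ^ 2) + (k ^ 2 + kx ^ 2 + ky ^ 2)) := by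
  have hy0 : 0 < y := by linarith
  have h1 : 1 / (4 * y ^ 2) ≤ 1 / 2 := by
    rw [div_le_div_iff₀ (by positivity) (by norm_num)]
    nlinarith
  have h10 : 0 ≤ 1 / (4 * y ^ 2) := by positivity
  have h2 : 1 / (2 * y ^ 3) ≤ 2 := by
    rw [div_le_iff₀ (by positivity)]
    have : (3 / 4 : ℝ) ^ 3 ≤ y ^ 3 := pow_le_pow_left₀ (by norm_num) hy1 3
    nlinarith
  have h20 : 0 ≤ 1 / (2 * y ^ 3) := by positivity
  set α := 1 / (4 * y ^ 2) with hα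
  set β := 1 / (2 * y ^ 3) with hβ
  have e1 : (k - h) / (4 * y ^ 2) = (k - h) * α := by rw [hα]; ring
  have e2 : (kx - hx) / (4 * y ^ 2) = (kx - hx) * α := by rw [hα]; ring
  have e3 : (ky - hy) / (4 * y ^ 2) = (ky - hy) * α := by rw [hα]; ring
  have e4 : (k - h) / (2 * y ^ 3) = (k - h) * β := by rw [hβ]; ring
  rw [e1, e2, e3, e4]
  have a2 : α ^ 2 ≤ 1 / 4 := by nlinarith
  have b2 : β ^ 2 ≤ 4 := by nlinarith
  have f1 : ((k - h) * α) ^ 2 ≤ 1 / 2 * (k ^ 2 + h ^ 2) := by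
    have : ((k - h) * α) ^ 2 ≤ (k - h) ^ 2 * (1 / 4) := by
      rw [mul_pow]
      exact mul_le_mul_of_nonneg_left a2 (sq_nonneg _)
    nlinarith [sq_nonneg (k + h)]
  have f2 : ((kx - hx) * α) ^ 2 ≤ 1 / 2 * (kx ^ 2 + hx ^ 2) := by
    have : ((kx - hx) * α) ^ 2 ≤ (kx - hx) ^ 2 * (1 / 4) := by
      rw [mul_pow]
      exact mul_le_mul_of_nonneg_left a2 (sq_nonneg _)
    nlinarith [sq_nonneg (kx + hx)]
  have f3 : ((ky - hy) * α) ^ 2 ≤ 1 / 2 * (ky ^ 2 + hy ^ 2) := by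
    have : ((ky - hy) * α) ^ 2 ≤ (ky - hy) ^ 2 * (1 / 4) := by
      rw [mul_pow]
      exact mul_le_mul_of_nonneg_left a2 (sq_nonneg _)
    nlinarith [sq_nonneg (ky + hy)]
  have f4 : ((k - h) * β) ^ 2 ≤ 8 * (k ^ 2 + h ^ 2) := by
    have : ((k - h) * β) ^ 2 ≤ (k - h) ^ 2 * 4 := by
      rw [mul_pow]
      exact mul_le_mul_of_nonneg_left b2 (sq_nonneg _)
    nlinarith [sq_nonneg (k + h)]
  have f5 : ((ky - hy) * α - (k - h) * β) ^ 2 ≤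
      2 * ((ky - hy) * α) ^ 2 + 2 * ((k - h) * β) ^ 2 := by
    nlinarith [sq_nonneg ((ky - hy) * α + (k - h) * β)]
  nlinarith [sq_nonneg h, sq_nonneg hx, sq_nonneg hy, sq_nonneg k, sq_nonneg kx, sq_nonneg ky]

theorem EB_cont (hBS : BS_stmt) {f : ℝ → ℝ → ℝ → ℝ} (hf : Sm f) (s : ℝ) :
    ContinuousOn (EB_e f s) {p | 0 < p.2} := by
  obtain ⟨-, hX, hY, -⟩ := hBS f hf
  exact (((EB_cd hf s).continuousOn.pow 2).add ((EB_cd hX s).continuousOn.pow 2)).add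
    ((EB_cd hY s).continuousOn.pow 2)

theorem EB_Qpos {y0 : ℝ} (hy : 1 ≤ y0) {p : ℝ × ℝ} (hp : p ∈ Qb y0) : 3 / 4 ≤ p.2 := by
  have := hp.2.1
  linarith

theorem EB_Qint (hBS : BS_stmt) {f : ℝ → ℝ → ℝ → ℝ} (hf : Sm f) (s : ℝ) {y0 : ℝ} (hy : 1 ≤ y0) :
    IntegrableOn (EB_e f s) (Qb y0) := by
  have hc : IsCompact (Qb y0) := isCompact_Icc.prod isCompact_Icc
  refine ContinuousOn.integrableOn_compact hc ((EB_cont hBS hf s).mono fun p hp => ?_)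
  have := EB_Qpos hy hp
  show 0 < p.2
  linarith

theorem EB_Dm : MeasurableSet Dm := by
  have h1 : MeasurableSet {p : ℝ × ℝ | 1 < p.1 ^ 2 + p.2 ^ 2} :=
    measurableSet_lt measurable_const (by fun_prop)
  exact (measurableSet_lt measurable_const measurable_fst).inter
    ((measurableSet_lt measurable_fst measurable_const).inter
      ((measurableSet_lt measurable_const measurable_snd).inter h1))

/-- the integral over the box -/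
theorem EB_box (hEZ : EZ_stmt) (hENW : ENW_stmt) {C2 : ℝ} (hC2 : 0 < C2)
    (hR : ∀ (h : ℝ × ℝ → ℝ), ContDiffOn ℝ ∞ h {p | 0 < p.2} →
      (∀ x y : ℝ, 0 < y → h (-x, y) = -h (x, y)) →
      (∀ x y : ℝ, 0 < y → h (x / (x ^ 2 + y ^ 2), y / (x ^ 2 + y ^ 2)) = -h (x, y)) →
      IntegrableOn (fun p : ℝ × ℝ => p.2 ^ 2 * (h p ^ 2 + px h p ^ 2 + py h p ^ 2)) Dm →
      ∀ y0 : ℝ, 1 ≤ y0 → y0 ^ 2 * ∫ p in Qb y0, (h p ^ 2 + px h p ^ 2 + py h p ^ 2) ≤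
        C2 * ∫ p in Dm, p.2 ^ 2 * (h p ^ 2 + px h p ^ 2 + py h p ^ 2))
    {f : ℝ → ℝ → ℝ → ℝ} (hf : EW f) (s : ℝ) {y0 : ℝ} (hy : 1 ≤ y0) :
    y0 ^ 2 * ∫ p in Qb y0, EB_e f s p ≤ C2 * (4 * (En f s + En (dS (dS f)) s)) := by
  set h : ℝ × ℝ → ℝ := fun p => f s p.1 p.2 with hh
  have hex : ∀ p : ℝ × ℝ, 0 < p.2 → h p ^ 2 + px h p ^ 2 + py h p ^ 2 = EB_e f s p := by
    intro p hp
    rw [hh, EB_px hf.sm s hp, EB_py hf.sm s hp]
    rfl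
  obtain ⟨i1, i2, i3⟩ := hENW f hf s
  have hint : IntegrableOn (fun p : ℝ × ℝ => p.2 ^ 2 * EB_e f s p) Dm := by
    have := i1.add i2
    refine this.congr_fun (fun p _ => ?_) EB_Dm
    show p.2 ^ 2 * ((dX f s p.1 p.2) ^ 2 + (dY f s p.1 p.2) ^ 2) + p.2 ^ 2 * (f s p.1 p.2) ^ 2 =
      p.2 ^ 2 * EB_e f s p
    unfold EB_e
    ring
  have hint' : IntegrableOn (fun p : ℝ × ℝ => p.2 ^ 2 * (h p ^ 2 + px h p ^ 2 + py h p ^ 2)) Dm := by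
    refine hint.congr_fun (fun p hp => ?_) EB_Dm
    show p.2 ^ 2 * EB_e f s p = p.2 ^ 2 * (h p ^ 2 + px h p ^ 2 + py h p ^ 2)
    rw [hex p hp.2.2.1]
  have h1 := hR h (EB_cd hf.sm s) (fun x y hy => hf.odd s x y hy)
    (fun x y hy => (hEZ f hf s y hy).2.2.2 x) hint' y0 hy
  have hQm : MeasurableSet (Qb y0) := measurableSet_Icc.prod measurableSet_Icc
  have e1 : ∫ p in Qb y0, (h p ^ 2 + px h p ^ 2 + py h p ^ 2) = ∫ p in Qb y0, EB_e f s p := by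
    refine setIntegral_congr_fun hQm fun p hp => ?_
    have := EB_Qpos hy hp
    exact hex p (by linarith)
  have e2 : ∫ p in Dm, p.2 ^ 2 * (h p ^ 2 + px h p ^ 2 + py h p ^ 2) =
      ∫ p in Dm, p.2 ^ 2 * EB_e f s p := by
    refine setIntegral_congr_fun EB_Dm fun p hp => ?_
    show p.2 ^ 2 * (h p ^ 2 + px h p ^ 2 + py h p ^ 2) = p.2 ^ 2 * EB_e f s p
    rw [hex p hp.2.2.1]
  rw [e1, e2] at h1
  exact h1.trans (mul_le_mul_of_nonneg_left i3 hC2.le)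

theorem EB (hBS : BS_stmt) (hEWC : EWC_stmt) (hEZ : EZ_stmt) (hENC : ENC_stmt) (hENL : ENL_stmt)
    (hENW : ENW_stmt) (hLR : LR_stmt) (hRFQ : RFQ_stmt) : EB_stmt := by
  obtain ⟨C1, hC1, hL⟩ := hLR
  obtain ⟨C2, hC2, hR⟩ := hRFQ
  refine ⟨C1 * (20 * (C2 * 8)), by positivity, ?_⟩
  intro f hf s s0 y hy
  have hf1 : EW (dS f) := hEWC.1 f hf
  have hf2 : EW (dS (dS f)) := hEWC.1 _ hf1
  have hf4 : EW (dS (dS (dS (dS f)))) := hEWC.1 _ (hEWC.1 _ hf2)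
  have hy0 : 0 < y := by linarith
  -- local regularity
  have h1 := hL (fun p : ℝ × ℝ => f s p.1 p.2) y hy (EB_cd hf.sm s)
  rw [EB_px hf.sm s (p := (0, y)) hy0] at h1
  have hQm : MeasurableSet (Qb y) := measurableSet_Icc.prod measurableSet_Icc
  have h2 : ∫ p in Qb y, ((fun p : ℝ × ℝ => f s p.1 p.2) p ^ 2 +
      px (fun p : ℝ × ℝ => f s p.1 p.2) p ^ 2 + py (fun p : ℝ × ℝ => f s p.1 p.2) p ^ 2 +
      lap (fun p : ℝ × ℝ => f s p.1 p.2) p ^ 2 + px (lap (fun p : ℝ × ℝ => f s p.1 p.2)) p ^ 2 +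
      py (lap (fun p : ℝ × ℝ => f s p.1 p.2)) p ^ 2) ≤
      ∫ p in Qb y, 20 * (EB_e f s p + EB_e (dS (dS f)) s p) := by
    refine integral_mono_of_nonneg ?_ ?_ ?_
    · refine Eventually.of_forall fun p => ?_
      show (0 : ℝ) ≤ _
      positivity
    · exact ((EB_Qint hBS hf.sm s hy).add (EB_Qint hBS hf2.sm s hy)).const_mul 20
    · refine (ae_restrict_iff' hQm).2 (Eventually.of_forall fun p hp => ?_)
      have hp3 := EB_Qpos hy hp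
      have hp0 : 0 < p.2 := by linarith
      beta_reduce
      rw [EB_px hf.sm s hp0, EB_py hf.sm s hp0, EB_lap hBS hf.sm hf.wv s hp0,
        (EB_plap hBS hf.sm hf.wv s hp0).1, (EB_plap hBS hf.sm hf.wv s hp0).2]
      exact EB_alg _ _ _ _ _ _ _ hp3
  have h3 : ∫ p in Qb y, 20 * (EB_e f s p + EB_e (dS (dS f)) s p) =
      20 * ((∫ p in Qb y, EB_e f s p) + ∫ p in Qb y, EB_e (dS (dS f)) s p) := by
    rw [integral_const_mul, integral_add (EB_Qint hBS hf.sm s hy) (EB_Qint hBS hf2.sm s hy)]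
  rw [h3] at h2
  have b1 := EB_box hEZ hENW hC2 hR hf s hy
  have b2 := EB_box hEZ hENW hC2 hR hf2 s hy
  rw [hENC f hf s s0, hENC _ hf2 s s0] at b1
  rw [hENC _ hf2 s s0, hENC _ hf4 s s0] at b2
  -- the sum of the energies
  have hEW : ∀ j, EW (dS^[j] f) := by
    intro j
    induction j with
    | zero => exact hf
    | succ j ih =>
      rw [Function.iterate_succ_apply']
      exact hEWC.1 _ ih
  have hpos : ∀ j, 0 ≤ En (dS^[j] f) s0 := fun j => (hENL _ (hEW j) s0).2.2.2.2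
  have hsum : ∑ j ∈ Finset.range 6, En (dS^[j] f) s0 =
      En f s0 + En (dS f) s0 + En (dS (dS f)) s0 + En (dS (dS (dS f))) s0 +
        En (dS (dS (dS (dS f)))) s0 + En (dS (dS (dS (dS (dS f))))) s0 := by
    simp only [Finset.sum_range_succ, Finset.sum_range_zero, zero_add, Function.iterate_zero,
      Function.iterate_succ, Function.comp, id]
  rw [hsum]
  have p1 : 0 ≤ En f s0 := hpos 0
  have p2 : 0 ≤ En (dS f) s0 := hpos 1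
  have p3 : 0 ≤ En (dS (dS f)) s0 := hpos 2
  have p4 : 0 ≤ En (dS (dS (dS f))) s0 := hpos 3
  have p5 : 0 ≤ En (dS (dS (dS (dS f)))) s0 := hpos 4
  have p6 : 0 ≤ En (dS (dS (dS (dS (dS f))))) s0 := hpos 5
  have h4 : (dX f s 0 y) ^ 2 ≤ C1 * (20 * ((∫ p in Qb y, EB_e f s p) +
      ∫ p in Qb y, EB_e (dS (dS f)) s p)) := h1.trans (mul_le_mul_of_nonneg_left h2 hC1.le)
  have h5 : (dX f s 0 y) ^ 2 * y ^ 2 ≤ C1 * (20 * ((∫ p in Qb y, EB_e f s p) +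
      ∫ p in Qb y, EB_e (dS (dS f)) s p)) * y ^ 2 := mul_le_mul_of_nonneg_right h4 (sq_nonneg y)
  have h6 : C1 * (20 * ((∫ p in Qb y, EB_e f s p) + ∫ p in Qb y, EB_e (dS (dS f)) s p)) * y ^ 2 =
      C1 * (20 * ((y ^ 2 * ∫ p in Qb y, EB_e f s p) + y ^ 2 * ∫ p in Qb y, EB_e (dS (dS f)) s p)) := by
    ring
  rw [h6] at h5
  refine h5.trans ?_
  rw [mul_assoc C1]
  refine mul_le_mul_of_nonneg_left ?_ hC1.le
  rw [mul_assoc (20 : ℝ)]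
  refine mul_le_mul_of_nonneg_left ?_ (by norm_num)
  refine (add_le_add b1 b2).trans ?_
  rw [← mul_add, mul_assoc C2]
  refine mul_le_mul_of_nonneg_left ?_ hC2.le
  linarith

end SF
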