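import Pool.Agent.helper1.SF.SpecA

/-!
# Project SF, block sa, module EDA
-/

set_option autoImplicit false

namespace SF

open Pool.Agent.helper72.Sq MeasureTheory Set
open scoped ContDiff

theorem EDA_chi (m : ℤ) : |chi m| ≤ 1 := by
  unfold chi
  split_ifs <;> simp

/-- the factor -/
theorem EDA_fac (l σ : ℝ) (hl : 3 / 2 ≤ l) (hσ : 1 < σ) :
    0 ≤ 1 / (l ^ 2 * √(σ - 1 / l ^ 2)) ∧ 1 / (l ^ 2 * √(σ - 1 / l ^ 2)) ≤ 1 := by
  have h1 : 9 / 4 ≤ l ^ 2 := by nlinarith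
  have h2 : 1 / l ^ 2 ≤ 4 / 9 := by
    rw [div_le_div_iff₀ (by linarith) (by norm_num)]
    linarith
  have h3 : 1 / 2 ≤ √(σ - 1 / l ^ 2) := by
    apply Real.le_sqrt_of_sq_le
    linarith
  have h4 : 1 ≤ l ^ 2 * √(σ - 1 / l ^ 2) := by nlinarith
  refine ⟨by positivity, ?_⟩
  rw [div_le_one (by linarith)]
  exact h4

theorem EDA_sum (y0 l l' σ : ℝ) (N : ℕ)
    (h : ∀ m : ℤ, (N : ℤ) < |m| → Km σ y0 l l' m = 0) :
    Summable (fun m : ℤ => chi m * Km σ y0 l l' m) ∧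
      ∑' m : ℤ, chi m * Km σ y0 l l' m =
        ∑ m ∈ Finset.Icc (-(N : ℤ)) N, chi m * Km σ y0 l l' m := by
  have h0 : ∀ m : ℤ, m ∉ Finset.Icc (-(N : ℤ)) N → chi m * Km σ y0 l l' m = 0 := by
    intro m hm
    rw [h m, mul_zero]
    rw [Finset.mem_Icc] at hm
    by_contra hc
    push Not at hc
    exact hm (abs_le.1 hc)
  exact ⟨summable_of_ne_finset_zero h0, tsum_eq_sum h0⟩

theorem EDA_pt (hK : KMM_stmt) (C1 C2 : ℝ) (hC1 : 0 < C1)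
    (hU : ∀ σ l l1 l2 y W : ℝ, 1 < σ → σ ≤ 2 → 1 ≤ l → 1 ≤ l1 → 1 ≤ l2 →
      0 < y → W = (σ - 1 / l ^ 2) * l ^ 2 / y ^ 2 → (l + l1 + l2) ^ 8 ≤ W →
      Summable (fun m : ℤ => |LA σ l l1 y m - LA σ l l2 y m|) ∧
      ∑' m : ℤ, |LA σ l l1 y m - LA σ l l2 y m| ≤ C1 * (l + l1 + l2) ^ 2 / √(√W))
    (hV : ∀ σ l l1 l2 : ℝ, 1 < σ → σ ≤ 2 → 3 / 2 ≤ l → 1 ≤ l1 → 1 ≤ l2 →
      Summable (fun m : ℤ => |LA σ l l1 1 m - LA σ l l2 1 m|) ∧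
      ∑' m : ℤ, |LA σ l l1 1 m - LA σ l l2 1 m| ≤ C2 * (l + l1 + l2) ^ 2)
    (l l1 l2 y0 σ : ℝ) (hl : 3 / 2 ≤ l) (hl1 : 1 ≤ l1) (hl2 : 1 ≤ l2) (hy : 0 < y0)
    (hD : (l + l1 + l2) ^ 4 * y0 ≤ 1) (hσ1 : 1 < σ) (hσ2 : σ ≤ 2) (N : ℕ)
    (h1 : ∀ m : ℤ, (N : ℤ) < |m| → Km σ y0 l l1 m = 0)
    (h2 : ∀ m : ℤ, (N : ℤ) < |m| → Km σ y0 l l2 m = 0) :
    |(∑' m : ℤ, chi m * Km σ y0 l l1 m) - ∑' m : ℤ, chi m * Km σ y0 l l2 m| ≤
      (C1 + C2) * (l + l1 + l2) ^ 2 := by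
  set D : ℝ := l + l1 + l2 with hDdef
  have hD1 : 3 ≤ D := by rw [hDdef]; linarith
  have hD4 : 1 ≤ D ^ 4 := one_le_pow₀ (by linarith)
  have hy1 : y0 ≤ 1 := by nlinarith
  obtain ⟨s1, e1⟩ := EDA_sum y0 l l1 σ N h1
  obtain ⟨s2, e2⟩ := EDA_sum y0 l l2 σ N h2
  rw [← s1.tsum_sub s2]
  -- the parameter W
  have hl2' : 9 / 4 ≤ l ^ 2 := by nlinarith
  have hW0 : 5 / 4 ≤ (σ - 1 / l ^ 2) * l ^ 2 := by
    have : (σ - 1 / l ^ 2) * l ^ 2 = σ * l ^ 2 - 1 := by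
      field_simp
    rw [this]
    nlinarith
  have hW : D ^ 8 ≤ (σ - 1 / l ^ 2) * l ^ 2 / y0 ^ 2 := by
    rw [le_div_iff₀ (by positivity)]
    have h3 : D ^ 8 * y0 ^ 2 = (D ^ 4 * y0) ^ 2 := by ring
    rw [h3]
    have h4 : (D ^ 4 * y0) ^ 2 ≤ 1 := by
      have h5 : 0 ≤ D ^ 4 * y0 := by positivity
      nlinarith
    linarith
  obtain ⟨u1, u2⟩ := hU σ l l1 l2 y0 _ hσ1 hσ2 (by linarith) hl1 hl2 hy rfl hW
  obtain ⟨v1, v2⟩ := hV σ l l1 l2 hσ1 hσ2 hl hl1 hl2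
  have hW1 : 1 ≤ √(√((σ - 1 / l ^ 2) * l ^ 2 / y0 ^ 2)) := by
    apply Real.le_sqrt_of_sq_le
    apply Real.le_sqrt_of_sq_le
    have : (1 : ℝ) ≤ D ^ 8 := one_le_pow₀ (by linarith)
    linarith
  have u3 : ∑' m : ℤ, |LA σ l l1 y0 m - LA σ l l2 y0 m| ≤ C1 * D ^ 2 :=
    u2.trans (div_le_self (by positivity) hW1)
  have hsum := u1.add v1
  have hb : ∀ m : ℤ, ‖chi m * Km σ y0 l l1 m - chi m * Km σ y0 l l2 m‖ ≤
      |LA σ l l1 y0 m - LA σ l l2 y0 m| + |LA σ l l1 1 m - LA σ l l2 1 m| := by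
    intro m
    rw [hK σ y0 l l1 m hσ1 hy hy1 (by linarith) hl1, hK σ y0 l l2 m hσ1 hy hy1 (by linarith) hl2]
    obtain ⟨f0, f1⟩ := EDA_fac l σ hl hσ1
    set f := 1 / (l ^ 2 * √(σ - 1 / l ^ 2)) with hf
    have e : chi m * (f * (LA σ l l1 y0 m - LA σ l l1 1 m)) -
        chi m * (f * (LA σ l l2 y0 m - LA σ l l2 1 m)) =
        chi m * f * ((LA σ l l1 y0 m - LA σ l l2 y0 m) - (LA σ l l1 1 m - LA σ l l2 1 m)) := by ring
    rw [e, Real.norm_eq_abs, abs_mul, abs_mul, abs_of_nonneg f0]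
    have e1 := EDA_chi m
    have e2 : |chi m| * f ≤ 1 := by
      have := abs_nonneg (chi m)
      nlinarith
    have e3 := abs_sub (LA σ l l1 y0 m - LA σ l l2 y0 m) (LA σ l l1 1 m - LA σ l l2 1 m)
    calc |chi m| * f * |(LA σ l l1 y0 m - LA σ l l2 y0 m) - (LA σ l l1 1 m - LA σ l l2 1 m)| ≤
        1 * |(LA σ l l1 y0 m - LA σ l l2 y0 m) - (LA σ l l1 1 m - LA σ l l2 1 m)| :=
          mul_le_mul_of_nonneg_right e2 (abs_nonneg _)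
      _ ≤ _ := by rw [one_mul]; exact e3
  have h5 := tsum_of_norm_bounded hsum.hasSum hb
  rw [Real.norm_eq_abs] at h5
  refine h5.trans ?_
  rw [u1.tsum_add v1]
  linarith

theorem EDA (hK : KMM_stmt) (hU : USM_stmt) (hV : VSM_stmt) (hX : EXK_stmt) : EDA_stmt := by
  obtain ⟨C1, hC1, hU⟩ := hU
  obtain ⟨C2, hC2, hV⟩ := hV
  refine ⟨C1 + C2, by positivity, ?_⟩
  intro g l l1 l2 y0 hg hl hl1 hl2 hy hD
  have hD1 : 3 ≤ l + l1 + l2 := by linarith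
  have hD4 : 1 ≤ (l + l1 + l2) ^ 4 := one_le_pow₀ (by linarith)
  have hy1 : y0 ≤ 1 := by nlinarith
  obtain ⟨N, hN⟩ := exists_nat_ge (8 * (l + l1 + l2) / y0)
  rw [div_le_iff₀ hy] at hN
  obtain ⟨-, z1, i1, -⟩ := hX g hg l l1 y0 N (by linarith) hl1 hy hy1 (by linarith)
  obtain ⟨-, z2, i2, -⟩ := hX g hg l l2 y0 N (by linarith) hl2 hy hy1 (by linarith)
  have hint : ∀ l' : ℝ, (∀ σ : ℝ, σ ≤ 2 → ∀ m : ℤ, (N : ℤ) < |m| → Km σ y0 l l' m = 0) →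
      (∀ m : ℤ, IntervalIntegrable (fun σ => deriv g σ * Km σ y0 l l' m) volume 1 2) →
      IntervalIntegrable (fun σ => deriv g σ * ∑' m : ℤ, chi m * Km σ y0 l l' m) volume 1 2 := by
    intro l' z i
    have h1 : IntervalIntegrable (fun σ => ∑ m ∈ Finset.Icc (-(N : ℤ)) N,
        chi m * (deriv g σ * Km σ y0 l l' m)) volume 1 2 := by
      have := IntervalIntegrable.sum (Finset.Icc (-(N : ℤ)) N)
        (f := fun m σ => chi m * (deriv g σ * Km σ y0 l l' m)) (μ := volume) (a := 1) (b := 2)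
        (fun m _ => (i m).const_mul (chi m))
      refine this.congr ?_
      intro x _
      simp
    refine h1.congr ?_
    intro σ hσ
    rw [uIoc_of_le (by norm_num)] at hσ
    show ∑ m ∈ Finset.Icc (-(N : ℤ)) N, chi m * (deriv g σ * Km σ y0 l l' m) =
      deriv g σ * ∑' m : ℤ, chi m * Km σ y0 l l' m
    rw [(EDA_sum y0 l l' σ N (z σ hσ.2)).2, Finset.mul_sum]
    refine Finset.sum_congr rfl fun m _ => ?_
    ring
  have I1 := hint l1 z1 i1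
  have I2 := hint l2 z2 i2
  unfold Ex
  rw [← mul_sub, ← intervalIntegral.integral_sub I1 I2, abs_mul]
  have hcont : Continuous (deriv g) := hg.1.smooth.continuous_deriv (by norm_num)
  have hb : IntervalIntegrable (fun σ => (C1 + C2) * (l + l1 + l2) ^ 2 * |deriv g σ|) volume 1 2 :=
    (continuous_const.mul hcont.abs).intervalIntegrable _ _
  have hn : ‖∫ σ in (1 : ℝ)..2, (deriv g σ * ∑' m : ℤ, chi m * Km σ y0 l l1 m) -
      (deriv g σ * ∑' m : ℤ, chi m * Km σ y0 l l2 m)‖ ≤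
      ∫ σ in (1 : ℝ)..2, (C1 + C2) * (l + l1 + l2) ^ 2 * |deriv g σ| := by
    apply intervalIntegral.norm_integral_le_of_norm_le (by norm_num) _ hb
    refine Filter.Eventually.of_forall fun σ hσ => ?_
    rw [← mul_sub, Real.norm_eq_abs, abs_mul, mul_comm]
    apply mul_le_mul_of_nonneg_right _ (abs_nonneg _)
    exact EDA_pt hK C1 C2 hC1 hU hV l l1 l2 y0 σ hl hl1 hl2 hy hD hσ.1 hσ.2 N
      (z1 σ hσ.2) (z2 σ hσ.2)
  rw [Real.norm_eq_abs] at hn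
  rw [intervalIntegral.integral_const_mul] at hn
  have hpi : |1 / (2 * Real.pi)| ≤ 1 := by
    have := Real.pi_gt_three
    rw [abs_of_pos (by positivity), div_le_one (by positivity)]
    linarith
  calc _ ≤ 1 * |∫ σ in (1 : ℝ)..2, (deriv g σ * ∑' m : ℤ, chi m * Km σ y0 l l1 m) -
      (deriv g σ * ∑' m : ℤ, chi m * Km σ y0 l l2 m)| :=
        mul_le_mul_of_nonneg_right hpi (abs_nonneg _)
    _ ≤ _ := by rw [one_mul]; exact hn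

end SF
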