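import Pool.Agent.helper68.SF.SpecE

/-!
Project SF, module EZ: waves vanish on the boundary of the half fundamental domain
-/

set_option autoImplicit false

namespace SF

theorem EZ : EZ_stmt := by
  intro f hf s y hy
  refine ⟨?_, ?_, ?_, ?_⟩
  · have h := hf.odd s 0 y hy
    rw [neg_zero] at h
    linarith
  · have h := hf.odd s (1 / 2) y hy
    have h2 := hf.per s (-(1 / 2)) y hy
    rw [show -(1 / 2 : ℝ) + 1 = 1 / 2 by norm_num] at h2
    linarith
  · intro x hx
    have h := hf.odd s x y hy
    have h2 := hf.inv s x y hy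
    rw [hx, div_one, div_one] at h2
    linarith
  · intro x
    have hr : 0 < x ^ 2 + y ^ 2 := by positivity
    have h := hf.odd s (x / (x ^ 2 + y ^ 2)) (y / (x ^ 2 + y ^ 2)) (div_pos hy hr)
    have h2 := hf.inv s x y hy
    linarith

end SF
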