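import Pool.Agent.helper1.SF.SpecA

/-!
# Project SF, block sa, module JDM: the density of the cone function
-/

set_option autoImplicit false

namespace SF

open Pool.Agent.helper72.Sq MeasureTheory Set
open scoped ContDiff

theorem JDM_MM0 (g : ℝ → ℝ) (A : ℝ) (hA : 2 ≤ A) : MM g A = 0 := by
  unfold MM
  have h : EqOn (fun σ : ℝ => |deriv g σ| / √(σ - A)) (fun _ => (0 : ℝ)) (uIcc 1 2) := by
    intro σ hσ
    rw [uIcc_of_le (by norm_num)] at hσ
    show |deriv g σ| / √(σ - A) = 0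
    rw [Real.sqrt_eq_zero_of_nonpos (by linarith [hσ.2]), div_zero]
  rw [intervalIntegral.integral_congr h]
  simp

theorem JDM_MMn (g : ℝ → ℝ) (A : ℝ) : 0 ≤ MM g A :=
  intervalIntegral.integral_nonneg (by norm_num) (fun σ _ => by positivity)

theorem JDM_TT0 (g : ℝ → ℝ) (l l' y : ℝ) (m : ℤ)
    (h : 2 * BB l l' y - 1 - (m : ℝ) ^ 2 * y ^ 2 / 25 ≤ 0) (hB : 0 ≤ BB l l' y) :
    TT g l l' y m = 0 := by
  unfold TT
  have h1 : EqOn (fun σ : ℝ => deriv g σ / √(σ * BB l l' y - 1 - (m : ℝ) ^ 2 * y ^ 2 / 25))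
      (fun _ => (0 : ℝ)) (uIcc 1 2) := by
    intro σ hσ
    rw [uIcc_of_le (by norm_num)] at hσ
    show deriv g σ / √(σ * BB l l' y - 1 - (m : ℝ) ^ 2 * y ^ 2 / 25) = 0
    have h2 : σ * BB l l' y ≤ 2 * BB l l' y := mul_le_mul_of_nonneg_right hσ.2 hB
    rw [Real.sqrt_eq_zero_of_nonpos (by linarith), div_zero]
  rw [intervalIntegral.integral_congr h1]
  simp

/-- the main term -/
theorem JDM_main (N : ℕ) (hN : 5 ≤ N) (t : ℤ → ℝ) :
    ∑ v ∈ Finset.Icc (-(N : ℤ)) N ×ˢ Finset.Icc (-(N : ℤ)) N,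
      (if v.2 = 5 ∨ v.2 = -5 then t v.1 else 0) = 2 * ∑ m ∈ Finset.Icc (-(N : ℤ)) N, t m := by
  rw [Finset.sum_product, Finset.mul_sum]
  refine Finset.sum_congr rfl fun a _ => ?_
  have h : ∀ b : ℤ, (if b = 5 ∨ b = -5 then t a else 0) =
      (if b = 5 then t a else 0) + (if b = -5 then t a else 0) := by
    intro b
    by_cases h1 : b = 5
    · subst h1
      simp
    · by_cases h2 : b = -5
      · subst h2
        simp
      · simp [h1, h2]
  show ∑ b ∈ Finset.Icc (-(N : ℤ)) N, (if b = 5 ∨ b = -5 then t a else 0) = 2 * t a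
  rw [Finset.sum_congr rfl fun b _ => h b, Finset.sum_add_distrib, Finset.sum_ite_eq',
    Finset.sum_ite_eq', if_pos, if_pos]
  · ring
  · rw [Finset.mem_Icc]
    omega
  · rw [Finset.mem_Icc]
    omega

theorem JDM_chi (v : ℤ × ℤ) (hv : v ∉ Pv) (h5 : v.2 = 5 ∨ v.2 = -5) : chi v.1 = 0 := by
  have h1 : Int.gcd v.1 5 ≠ 1 := by
    intro h
    apply hv
    show Int.gcd v.1 v.2 = 1
    rcases h5 with h5 | h5
    · rw [h5]; exact h
    · rw [h5, Int.gcd_neg]; exact h
  have h2 : (5 : ℤ) ∣ v.1 := by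
    by_contra hc
    apply h1
    have hp : Nat.Prime 5 := by norm_num
    have h3 : Nat.Coprime 5 v.1.natAbs := by
      rw [Nat.Prime.coprime_iff_not_dvd hp]
      intro h4
      exact hc (Int.natCast_dvd.2 h4)
    have h4 : Int.gcd v.1 5 = Nat.gcd v.1.natAbs 5 := rfl
    rw [h4]
    exact h3.symm
  unfold chi
  have h3 : v.1 % 5 = 0 := Int.emod_eq_zero_of_dvd h2
  rw [h3]
  norm_num

theorem JDM (hWS : WS_stmt) (hR : RPB_stmt) : JDM_stmt := by
  obtain ⟨C, hC, hR⟩ := hR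
  refine ⟨C, hC, ?_⟩
  intro g hg l l' y N hl hl' hy hy1 hN
  set s := ss l l' y with hs
  set q := qq l l' y with hq
  set box := Finset.Icc (-(N : ℤ)) N ×ˢ Finset.Icc (-(N : ℤ)) N with hbox
  -- elementary facts
  have hB1 : 1 ≤ BB l l' y := by
    unfold BB
    have : 0 ≤ y ^ 2 * l' ^ 2 := by positivity
    nlinarith
  have hB2 : BB l l' y ≤ (l + l') ^ 2 := by
    unfold BB
    have h1 : y ^ 2 * l' ^ 2 ≤ 1 * l' ^ 2 :=
      mul_le_mul_of_nonneg_right (by nlinarith) (by positivity)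
    nlinarith
  have hNN : (8 * (l + l')) ^ 2 ≤ (N : ℝ) ^ 2 * y ^ 2 := by
    rw [← mul_pow]
    exact pow_le_pow_left₀ (by positivity) hN 2
  have hNy : (N : ℝ) ^ 2 * y ^ 2 ≤ (N : ℝ) ^ 2 := by
    have : y ^ 2 ≤ 1 := by nlinarith
    have h2 : 0 ≤ (N : ℝ) ^ 2 := by positivity
    nlinarith
  have hN16 : (16 : ℝ) ≤ N := by
    have h1 : (N : ℝ) * y ≤ N * 1 := mul_le_mul_of_nonneg_left hy1 (by positivity)
    linarith
  have hN5 : 5 ≤ N := by
    have : (5 : ℝ) ≤ (N : ℕ) := by linarith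
    exact_mod_cast this
  have hqB : √q * √y = √(BB l l' y) := by
    rw [← Real.sqrt_mul' _ hy.le]
    congr 1
    rw [hq]
    unfold qq BB
    field_simp
  have hsB : 1 ≤ √(BB l l' y) := by
    apply Real.le_sqrt_of_sq_le
    linarith
  have hsy : 0 < √y := Real.sqrt_pos.2 hy
  have hq0 : 0 < √q := by
    by_contra hc
    have h0 : √q = 0 := le_antisymm (not_lt.1 hc) (Real.sqrt_nonneg _)
    rw [h0, zero_mul] at hqB
    linarith
  -- outside of the box
  have hout : ∀ a : ℤ, (N : ℤ) < |a| → (N : ℝ) ^ 2 ≤ (a : ℝ) ^ 2 := by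
    intro a ha
    have h1 : (N : ℝ) < |(a : ℝ)| := by
      have : ((N : ℤ) : ℝ) < ((|a| : ℤ) : ℝ) := by exact_mod_cast ha
      simpa using this
    rw [← sq_abs (a : ℝ)]
    exact pow_le_pow_left₀ (by positivity) h1.le 2
  have hbig : ∀ v : ℤ × ℤ, v ∉ box → 2 ≤ Av l l' v y := by
    intro v hv
    have h1 : (N : ℝ) ^ 2 * y ^ 2 ≤ nv v y := by
      unfold nv
      have hv' : (N : ℤ) < |v.1| ∨ (N : ℤ) < |v.2| := by
        by_contra hc
        push Not at hc
        apply hv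
        rw [hbox, Finset.mem_product, Finset.mem_Icc, Finset.mem_Icc]
        exact ⟨abs_le.1 hc.1, abs_le.1 hc.2⟩
      rcases hv' with h | h
      · have h2 := mul_le_mul_of_nonneg_right (hout _ h) (by positivity : 0 ≤ y ^ 2)
        have h3 : 0 ≤ (v.2 : ℝ) ^ 2 := by positivity
        linarith
      · have h2 := hout _ h
        have h3 : 0 ≤ (v.1 : ℝ) ^ 2 * y ^ 2 := by positivity
        linarith
    unfold Av
    rw [le_div_iff₀ (by positivity)]
    nlinarith
  have hT0 : ∀ m : ℤ, (N : ℤ) < |m| → TT g l l' y m = 0 := by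
    intro m hm
    apply JDM_TT0 _ _ _ _ _ _ (by linarith)
    have h2 := mul_le_mul_of_nonneg_right (hout _ hm) (by positivity : 0 ≤ y ^ 2)
    nlinarith
  -- the main term
  set F : ℤ × ℤ → ℝ := fun v =>
    if v.2 = 5 ∨ v.2 = -5 then chi v.1 * (√q * TT g l l' y v.1) else 0 with hF
  have hFout : ∀ v : ℤ × ℤ, v ∉ box → F v = 0 := by
    intro v hv
    show (if v.2 = 5 ∨ v.2 = -5 then chi v.1 * (√q * TT g l l' y v.1) else 0) = 0
    split_ifs with h
    · have h1 : (N : ℤ) < |v.1| := by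
        by_contra hc
        push Not at hc
        apply hv
        rw [hbox, Finset.mem_product, Finset.mem_Icc, Finset.mem_Icc]
        refine ⟨abs_le.1 hc, ?_⟩
        omega
      rw [hT0 _ h1, mul_zero, mul_zero]
    · rfl
  have hR' : ∀ v ∈ Pv, |dX (FF g v) s 0 y - F v| ≤ C * MM g (Av l l' v y) / √y := by
    intro v hv
    exact hR g hg v hv l l' y hl hl' hy hy1
  have hz : ∀ v ∈ Pv, v ∉ box → dX (FF g v) s 0 y = 0 := by
    intro v hv hv'
    have h1 := hR' v hv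
    rw [JDM_MM0 g _ (hbig v hv'), mul_zero, zero_div, hFout v hv', sub_zero] at h1
    exact abs_nonpos_iff.1 h1
  have hsum : ∑ᶠ v ∈ Pv, dX (FF g v) s 0 y =
      ∑ v ∈ box, Pv.indicator (fun v => dX (FF g v) s 0 y) v := by
    rw [finsum_mem_def]
    apply finsum_eq_sum_of_support_subset
    intro v hv
    by_contra hc
    apply hv
    show Pv.indicator (fun v => dX (FF g v) s 0 y) v = 0
    by_cases h : v ∈ Pv
    · rw [indicator_of_mem h]
      exact hz v h hc
    · exact indicator_of_notMem h _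
  have hterm : ∀ v ∈ box, |Pv.indicator (fun v => dX (FF g v) s 0 y) v - F v| ≤
      C / √y * MM g (Av l l' v y) := by
    intro v _
    by_cases h : v ∈ Pv
    · rw [indicator_of_mem h]
      refine (hR' v h).trans (le_of_eq ?_)
      ring
    · rw [indicator_of_notMem h]
      have h1 : F v = 0 := by
        show (if v.2 = 5 ∨ v.2 = -5 then chi v.1 * (√q * TT g l l' y v.1) else 0) = 0
        split_ifs with h5
        · rw [JDM_chi v h h5, zero_mul]
        · rfl
      rw [h1, sub_zero, abs_zero]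
      have := JDM_MMn g (Av l l' v y)
      positivity
  have hdiff : |∑ᶠ v ∈ Pv, dX (FF g v) s 0 y - ∑ v ∈ box, F v| ≤
      C / √y * ∑ v ∈ box, MM g (Av l l' v y) := by
    rw [hsum, ← Finset.sum_sub_distrib, Finset.mul_sum]
    exact (Finset.abs_sum_le_sum_abs _ _).trans (Finset.sum_le_sum hterm)
  have hmain : ∑ v ∈ box, F v = 2 * ∑ m ∈ Finset.Icc (-(N : ℤ)) N,
      chi m * (√q * TT g l l' y m) :=
    JDM_main N hN5 (fun m => chi m * (√q * TT g l l' y m))
  have hmain2 : ∑ m ∈ Finset.Icc (-(N : ℤ)) N, chi m * (√q * TT g l l' y m) =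
      √q * ∑ m ∈ Finset.Icc (-(N : ℤ)) N, chi m * TT g l l' y m := by
    rw [Finset.mul_sum]
    refine Finset.sum_congr rfl fun m _ => ?_
    ring
  have hdX := ((hWS g hg.1).2.2.2.2 s 0 y hy).2
  rw [hdX]
  rw [hmain, hmain2] at hdiff
  set S1 := ∑ᶠ v ∈ Pv, dX (FF g v) s 0 y
  set T := ∑ m ∈ Finset.Icc (-(N : ℤ)) N, chi m * TT g l l' y m
  set R := ∑ v ∈ box, MM g (Av l l' v y) with hRdef
  have hR0 : 0 ≤ R := Finset.sum_nonneg fun v _ => JDM_MMn g _
  have e : 1 / √q * (1 / 2 * S1) - T = 1 / (2 * √q) * (S1 - 2 * (√q * T)) := by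
    field_simp
  rw [e, abs_mul, abs_of_pos (by positivity)]
  calc 1 / (2 * √q) * |S1 - 2 * (√q * T)| ≤ 1 / (2 * √q) * (C / √y * R) :=
        mul_le_mul_of_nonneg_left hdiff (by positivity)
    _ = C * R / (2 * (√q * √y)) := by
        field_simp
    _ ≤ C * R := by
        rw [hqB]
        apply div_le_self (by positivity)
        linarith

end SF
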