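import Pool.Agent.helper68.SF.SpecW

/-!
Project SF, module LF: local finiteness
-/

set_option autoImplicit false

namespace SF

open scoped ContDiff

theorem LF_YY (v : ℤ × ℤ) (x y : ℝ) : YY v x y = y / ip v v x y := by
  unfold YY Yr ip
  congr 1
  ring

theorem LF_ip0 (v : ℤ × ℤ) (x y : ℝ) : 0 ≤ ip v v x y := by
  have h : ip v v x y = (v.1 * x + v.2) ^ 2 + (v.1 * y) ^ 2 := by
    unfold ip
    ring
  rw [h]
  positivity

/-- where `b0` does not vanish -/
theorem LF_b0 (g : ℝ → ℝ) (hg : Prof g) (v : ℤ × ℤ) (s x y : ℝ)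
    (h : b0 g s (YY v x y) ≠ 0) :
    0 < ip v v x y ∧ ip v v x y < Real.exp (2 * s) * y ∧ Real.exp (2 * s) * y < 3 * ip v v x y := by
  have hgn : g (Real.exp (2 * s) * YY v x y) ≠ 0 := by
    intro h0
    apply h
    unfold b0
    rw [h0, mul_zero]
  have h1 : 1 < Real.exp (2 * s) * YY v x y := by
    by_contra hc
    exact hgn (hg.lo _ (not_lt.1 hc))
  have h3 : Real.exp (2 * s) * YY v x y < 3 := by
    by_contra hc
    exact hgn (hg.hi _ (not_lt.1 hc))
  rw [LF_YY] at h1 h3
  have hip : 0 < ip v v x y := by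
    rcases (LF_ip0 v x y).lt_or_eq with h' | h'
    · exact h'
    · rw [← h', div_zero, mul_zero] at h1
      exact absurd h1 (by norm_num)
  rw [← mul_div_assoc, lt_div_iff₀ hip, one_mul] at h1
  rw [← mul_div_assoc, div_lt_iff₀ hip] at h3
  exact ⟨hip, h1, h3⟩

theorem LF_dt (v : ℤ × ℤ) (hv : dt (cpl v) v = 1) (m : ℤ) : dt ((5 : ℤ) • cpl v + m • v) v = 5 := by
  unfold dt at hv ⊢
  rw [Prod.fst_add, Prod.snd_add, Prod.smul_fst, Prod.smul_snd, Prod.smul_fst, Prod.smul_snd,
    smul_eq_mul, smul_eq_mul, smul_eq_mul, smul_eq_mul]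
  linear_combination 5 * hv

theorem LF_sign (a b : ℝ) (hb : 0 < b) : Real.sign (a / b) = Real.sign a := by
  rcases lt_trichotomy a 0 with h | h | h
  · rw [Real.sign_of_neg h, Real.sign_of_neg (div_neg_of_neg_of_pos h hb)]
  · rw [h, zero_div]
  · rw [Real.sign_of_pos h, Real.sign_of_pos (div_pos h hb)]

theorem LF (hRH : RH_stmt) (hMG : MG_stmt) (hMH : MH_stmt) (hFV : FV_stmt) (hSCH : SCH_stmt) :
    LF_stmt := by
  intro g hg x1 y1 S T hy1 hS hT
  obtain ⟨M1, -, M3, M4, -, -⟩ := hMG
  set T' : ℝ := max T (|x1| + y1 + 1 / y1) with hT'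
  have hT0 : 0 < T' := lt_of_lt_of_le hT (le_max_left _ _)
  obtain ⟨C3, hC3⟩ := hSCH T' hT0
  have hbox1 : Bx T' x1 y1 := by
    have h1 : 0 < 1 / y1 := by positivity
    have h2 := abs_nonneg x1
    have h3 : |x1| + y1 + 1 / y1 ≤ T' := le_max_right _ _
    refine ⟨by linarith, ?_, by linarith⟩
    rw [one_div_le hT0 hy1]
    linarith
  set c : ℝ := Real.exp (-(2 * S)) / (3 * T) with hc
  have hc0 : 0 < c := by positivity
  set C : ℝ := max (75 * T * Real.exp (2 * S)) (25 * C3 / c) with hC
  refine (hFV T C hT).subset ?_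
  rintro v ⟨hv, s, x, y, hs, hx, hy, hyT, hFB⟩
  have hy0 : 0 < y := lt_of_lt_of_le (by positivity) hy
  refine ⟨x, y, ⟨hx, hy, hyT⟩, ?_⟩
  have hbox : Bx T' x y := by
    refine ⟨hx.trans (le_max_left _ _), ?_, hyT.trans (le_max_left _ _)⟩
    exact (one_div_le_one_div_of_le hT (le_max_left _ _)).trans hy
  have hq := M3 v hv x y hy0
  have hq1 := M3 v hv x1 y1 hy1
  have hes : Real.exp (2 * s) ≤ Real.exp (2 * S) := Real.exp_le_exp.2 (by linarith [(abs_le.1 hs).2])
  have hes' : Real.exp (-(2 * S)) ≤ Real.exp (2 * s) :=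
    Real.exp_le_exp.2 (by linarith [(abs_le.1 hs).1])
  have hE : 0 < Real.exp (2 * s) := Real.exp_pos _
  have hES : 0 < Real.exp (2 * S) := Real.exp_pos _
  by_cases hb : b0 g s (YY v x y) = 0
  swap
  · -- the first term
    obtain ⟨-, h1, -⟩ := LF_b0 g hg v s x y hb
    refine le_trans ?_ (le_max_left _ _)
    have h2 : Real.exp (2 * s) * y ≤ Real.exp (2 * S) * T :=
      mul_le_mul hes hyT hy0.le hES.le
    nlinarith [mul_pos hES hT]
  · -- the second term
    have hRR : RR g s (XX v x y) (YY v x y) (XX v x1 y1) ≠ 0 := by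
      intro h0
      apply hFB
      unfold FB
      rw [hb, h0, mul_zero, add_zero]
    have hk : ∃ k : ℤ, Bk g s (XX v x y) (YY v x y) (XX v x1 y1) k ≠ 0 := by
      by_contra hcon
      apply hRR
      unfold RR
      have h0 : (fun k : ℤ => Bk g s (XX v x y) (YY v x y) (XX v x1 y1) k) = fun _ => 0 := by
        funext k
        by_contra hne
        exact hcon ⟨k, hne⟩
      rw [h0, tsum_zero]
    obtain ⟨k, hk⟩ := hk
    have hY : YY v x y = y / ip v v x y := LF_YY v x y
    have hY0 : 0 < YY v x y := by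
      rw [hY]
      positivity
    by_cases hA : 3 ≤ Real.exp (2 * s) / (25 * YY v x y)
    swap
    · refine le_trans ?_ (le_max_left _ _)
      rw [not_le, div_lt_iff₀ (by positivity), hY] at hA
      have h1 : Real.exp (2 * s) * ip v v x y < 75 * y := by
        have h2 : 3 * (25 * (y / ip v v x y)) = 75 * y / ip v v x y := by ring
        rw [h2, lt_div_iff₀ hq] at hA
        exact hA
      -- e^{-2S} q ≤ 75 T
      have h3 : Real.exp (-(2 * S)) * ip v v x y ≤ 75 * T := by
        have := mul_le_mul_of_nonneg_right hes' hq.le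
        linarith
      have h4 : Real.exp (2 * S) * Real.exp (-(2 * S)) = 1 := by
        rw [← Real.exp_add, add_neg_cancel, Real.exp_zero]
      have h5 := mul_le_mul_of_nonneg_left h3 hES.le
      rw [← mul_assoc, h4, one_mul] at h5
      linarith
    · -- the high regime
      have key : ∀ j : ℤ, 1 / 2 * (Real.sign (XX v x1 y1 + k + (j : ℝ) / 5) -
          Real.sign (XX v x y + k + (j : ℝ) / 5)) * b1 g s (XX v x y + k + (j : ℝ) / 5) (YY v x y) ≠ 0 →
          ip v v x y ≤ C := by
        intro j hj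
        set m : ℤ := 5 * k + j with hm
        have em : ∀ z : ℝ, z + k + (j : ℝ) / 5 = z + (m : ℝ) / 5 := by
          intro z
          rw [hm]
          push_cast
          ring
        rw [em, em] at hj
        have hb1 : b1 g s (XX v x y + (m : ℝ) / 5) (YY v x y) ≠ 0 := by
          intro h0
          apply hj
          rw [h0, mul_zero]
        have hsg : Real.sign (XX v x y + (m : ℝ) / 5) ≠ Real.sign (XX v x1 y1 + (m : ℝ) / 5) := by
          intro h0
          apply hj
          rw [h0, sub_self, mul_zero, zero_mul]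
        rw [M4 v hv x y hy0 m, M4 v hv x1 y1 hy1 m, LF_sign _ _ (by positivity),
          LF_sign _ _ (by positivity)] at hsg
        have h1 := hC3 _ v x y x1 y1 hbox hbox1 hsg
        rw [LF_dt v (M1 v hv) m] at h1
        rw [hMH g hg v hv m s x y hy0] at hb1
        obtain ⟨hu0, -, hu3⟩ := LF_b0 g hg _ s x y hb1
        set u := (5 : ℤ) • cpl v + m • v with hu
        refine le_trans ?_ (le_max_right _ _)
        rw [le_div_iff₀ hc0]
        have hcu : c ≤ ip u u x y := by
          have h2 : Real.exp (-(2 * S)) * (1 / T) ≤ Real.exp (2 * s) * y :=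
            mul_le_mul hes' hy (by positivity) hE.le
          have h3 : c = Real.exp (-(2 * S)) * (1 / T) / 3 := by
            rw [hc]
            field_simp
          rw [h3]
          linarith
        have h4 : ip v v x y * c ≤ ip v v x y * ip u u x y := mul_le_mul_of_nonneg_left hcu hq.le
        have h5 : C3 * (((5 : ℤ) : ℝ)) ^ 2 = 25 * C3 := by
          push_cast
          ring
        rw [h5] at h1
        linarith
      rw [hRH g hg s _ _ _ k hY0 hA] at hk
      unfold c5 at hk
      by_contra hcon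
      have hz : ∀ j : ℤ, 1 / 2 * (Real.sign (XX v x1 y1 + k + (j : ℝ) / 5) -
          Real.sign (XX v x y + k + (j : ℝ) / 5)) * b1 g s (XX v x y + k + (j : ℝ) / 5) (YY v x y) = 0 := by
        intro j
        by_contra hne
        exact hcon (key j hne)
      apply hk
      have z1 := hz 1
      have z2 := hz 2
      have z3 := hz 3
      have z4 := hz 4
      push_cast at z1 z2 z3 z4
      beta_reduce
      rw [z1, z2, z3, z4]
      norm_num

end SF
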