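import Pool.Agent.helper68.SF.SpecW

/-!
Project SF, module PI: parametric integrals are smooth
-/

set_option autoImplicit false

namespace SF

open scoped ContDiff Convolution
open MeasureTheory

theorem PI_pos (E : Type) [NormedAddCommGroup E] [NormedSpace ℝ E]
  (U : Set E) (F : E → ℝ → ℝ) (a b : ℝ) (hab : a ≤ b) (hU : IsOpen U)
  (hF : ContDiffOn ℝ ∞ (fun p : E × ℝ => F p.1 p.2) (U ×ˢ Set.univ)) :
  ContDiffOn ℝ ∞ (fun e => ∫ t in a..b, F e t) U := by
  have hR : 0 < |a| + |b| + 1 := by positivity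
  let χ : ContDiffBump (0 : ℝ) := ⟨|a| + |b| + 1, |a| + |b| + 2, hR, by linarith⟩
  let g : E → ℝ → ℝ := fun e t => χ t * F e (-t)
  let f : ℝ → ℝ := Set.indicator (Set.Ioc a b) (fun _ => 1)
  have hf : LocallyIntegrable f volume := by
    have h1 : LocallyIntegrable (fun _ : ℝ => (1 : ℝ)) volume := continuous_const.locallyIntegrable
    exact h1.indicator measurableSet_Ioc
  have hgs : ∀ p, ∀ x, p ∈ U → x ∉ Metric.closedBall (0 : ℝ) (|a| + |b| + 2) → g p x = 0 := by
    intro p x _ hx
    have h1 : χ x = 0 := by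
      apply χ.zero_of_le_dist
      rw [Metric.mem_closedBall, not_le] at hx
      exact hx.le
    show χ x * F p (-x) = 0
    rw [h1, zero_mul]
  have hg : ContDiffOn ℝ ∞ (fun p : E × ℝ => g p.1 p.2) (U ×ˢ Set.univ) := by
    have h1 : ContDiffOn ℝ ∞ (fun p : E × ℝ => F p.1 (-p.2)) (U ×ˢ Set.univ) := by
      have h2 : ContDiff ℝ ∞ (fun p : E × ℝ => (p.1, -p.2)) := contDiff_fst.prodMk contDiff_snd.neg
      exact hF.comp h2.contDiffOn (fun p hp => ⟨hp.1, Set.mem_univ _⟩)
    have h3 : ContDiff ℝ ∞ (fun p : E × ℝ => χ p.2) := χ.contDiff.comp contDiff_snd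
    exact h3.contDiffOn.mul h1
  have hc := contDiffOn_convolution_right_with_param (n := ⊤) (ContinuousLinearMap.lsmul ℝ ℝ) (μ := volume)
    (f := f) (g := g) hU (isCompact_closedBall (0 : ℝ) (|a| + |b| + 2)) hgs hf hg
  have hc2 : ContDiffOn ℝ ∞ (fun e : E => (f ⋆[ContinuousLinearMap.lsmul ℝ ℝ, volume] g e) 0) U := by
    have h2 : ContDiff ℝ ∞ (fun e : E => (e, (0 : ℝ))) := contDiff_id.prodMk contDiff_const
    exact hc.comp h2.contDiffOn (fun p hp => ⟨hp, Set.mem_univ _⟩)
  refine hc2.congr ?_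
  intro e _
  rw [intervalIntegral.integral_of_le hab, convolution_def, ← integral_indicator measurableSet_Ioc]
  refine integral_congr_ae (Filter.Eventually.of_forall fun t => ?_)
  show Set.indicator (Set.Ioc a b) (fun t => F e t) t = f t • (χ (0 - t) * F e (-(0 - t)))
  by_cases ht : t ∈ Set.Ioc a b
  · have h1 : χ (0 - t) = 1 := by
      apply χ.one_of_mem_closedBall
      rw [Metric.mem_closedBall, dist_zero_right, Real.norm_eq_abs]
      show |0 - t| ≤ |a| + |b| + 1
      rw [abs_le]
      have := neg_abs_le a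
      have := le_abs_self b
      have := abs_nonneg a
      have := abs_nonneg b
      constructor
      · linarith [ht.2]
      · linarith [ht.1]
    rw [Set.indicator_of_mem ht, h1]
    show F e t = Set.indicator (Set.Ioc a b) (fun _ => (1 : ℝ)) t • (1 * F e (-(0 - t)))
    rw [Set.indicator_of_mem ht, one_smul, one_mul, zero_sub, neg_neg]
  · rw [Set.indicator_of_notMem ht]
    show 0 = Set.indicator (Set.Ioc a b) (fun _ => (1 : ℝ)) t • _
    rw [Set.indicator_of_notMem ht, zero_smul]

theorem PI : PI_stmt := by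
  intro E _ _ _ U F a b hU hF
  rcases le_total a b with hab | hab
  · exact PI_pos E U F a b hab hU hF
  · have h1 := (PI_pos E U F b a hab hU hF).neg
    refine h1.congr fun e _ => ?_
    exact intervalIntegral.integral_symm b a

end SF
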