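import Pool.Agent.helper68.SF.SpecS

/-!
Project SF, module SZ: the law bounds the wave sum of every profile, with one constant
-/

set_option autoImplicit false

namespace SF

open Pool.Agent.helper72.Sq MeasureTheory Set Filter Topology

theorem SZ_lim (C1 a : ℝ) : Tendsto (fun h : ℝ => C1 * (a + h) ^ 2 * Real.exp (-h)) atTop (𝓝 0) := by
  have h1 := (Real.tendsto_pow_mul_exp_neg_atTop_nhds_zero 2).comp
    (tendsto_atTop_add_const_left atTop a tendsto_id)
  have h2 := h1.const_mul (C1 * Real.exp a)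
  rw [mul_zero] at h2
  refine h2.congr fun h => ?_
  show C1 * Real.exp a * ((a + h) ^ 2 * Real.exp (-(a + h))) = _
  have h3 : Real.exp (-(a + h)) = Real.exp (-a) * Real.exp (-h) := by
    rw [← Real.exp_add]
    congr 1
    ring
  have h4 : Real.exp a * Real.exp (-a) = 1 := by
    rw [← Real.exp_add, add_neg_cancel, Real.exp_zero]
  rw [h3]
  linear_combination C1 * (a + h) ^ 2 * Real.exp (-h) * h4

/-- along near periods the physical sum is close to the wave sum -/
theorem SZ_near (hSPW : SPW_stmt) (hSN : SN_stmt) (g : ℝ → ℝ) (P : Tri) (hg : Prof g) (hP : Adm P)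
    (R : ℝ) (hR : 1 ≤ R) (ε T : ℝ) (hε : 0 < ε) : ∃ h : ℝ, T ≤ h ∧ 1 ≤ h ∧
      |Real.exp (-h) * Sp g P (R * Real.exp h) - Sw g P R| ≤ ε := by
  obtain ⟨C1, hC1⟩ := hSPW g P hg hP
  have hlim := SZ_lim C1 (1 + Real.log R)
  have hev : ∀ᶠ h in atTop, C1 * (1 + Real.log R + h) ^ 2 * Real.exp (-h) < ε / 2 :=
    hlim.eventually (gt_mem_nhds (by positivity))
  obtain ⟨T1, hT1⟩ := eventually_atTop.1 hev
  obtain ⟨h, hh, hs⟩ := hSN g P hg hP R (ε / 2) (max T (max T1 1)) (by linarith) (by linarith)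
  have a1 : T ≤ h := (le_max_left _ _).trans hh
  have a2 : T1 ≤ h := ((le_max_left _ _).trans (le_max_right _ _)).trans hh
  have a3 : 1 ≤ h := ((le_max_right _ _).trans (le_max_right _ _)).trans hh
  refine ⟨h, a1, a3, ?_⟩
  have hexp : 2 ≤ Real.exp h := by
    have := Real.add_one_le_exp h
    linarith
  have hRe : 2 ≤ R * Real.exp h := by nlinarith
  have h1 := hC1 _ hRe
  rw [Real.log_mul (by linarith) (Real.exp_pos h).ne', Real.log_exp, ← add_assoc] at h1
  have h2 := hT1 h a2
  have h3 : |Real.exp (-h) * Sp g P (R * Real.exp h) - Real.exp (-h) * Sw g P (R * Real.exp h)| ≤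
      C1 * (1 + Real.log R + h) ^ 2 * Real.exp (-h) := by
    rw [← mul_sub, abs_mul, abs_of_pos (Real.exp_pos _), mul_comm]
    exact mul_le_mul_of_nonneg_right h1 (Real.exp_pos _).le
  have h4 := abs_add_le (Real.exp (-h) * Sp g P (R * Real.exp h) - Real.exp (-h) * Sw g P (R * Real.exp h))
    (Real.exp (-h) * Sw g P (R * Real.exp h) - Sw g P R)
  rw [sub_add_sub_cancel] at h4
  linarith

theorem SZ (hSPW : SPW_stmt) (hSN : SN_stmt) (hPS : PS_stmt) (hNZ : NZ_stmt) : SZ_stmt := by
  intro P hP hQ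
  obtain ⟨c, C0, hc⟩ := hPS P hP hQ
  -- the leading coefficient vanishes
  have hc0 : c = 0 := by
    obtain ⟨g, hg, hm⟩ := hNZ
    set m2 := ∫ ρ in (0 : ℝ)..1, ρ ^ 2 * deriv (Ph g) ρ with hm2
    by_contra hne
    have hpos : 0 < |c * m2| := abs_pos.2 (mul_ne_zero hne hm)
    set K := |Sw g P 1| + 1 + C0 * Ms g with hK
    obtain ⟨h, h1, h2, h3⟩ := SZ_near hSPW hSN g P hg hP 1 le_rfl 1 (K / |c * m2|) one_pos
    rw [one_mul] at h3
    have hexp1 : 1 ≤ Real.exp h := by
      have := Real.add_one_le_exp h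
      linarith
    have h4 := hc g (Real.exp h) hg hexp1
    have hE : 0 < Real.exp (-h) := Real.exp_pos _
    have hEE : Real.exp (-h) * Real.exp h = 1 := by
      rw [← Real.exp_add, neg_add_cancel, Real.exp_zero]
    have h5 : |Real.exp (-h) * Sp g P (Real.exp h) - c * m2 * Real.exp h| ≤ C0 * Ms g := by
      have e1 : Real.exp (-h) * Sp g P (Real.exp h) - c * m2 * Real.exp h =
          Real.exp (-h) * (Sp g P (Real.exp h) - c * Real.exp h ^ 2 * m2) := by
        linear_combination c * Real.exp h * m2 * hEE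
      rw [e1, abs_mul, abs_of_pos hE]
      have e2 := mul_le_mul_of_nonneg_left h4 hE.le
      have e3 : Real.exp (-h) * (C0 * Real.exp h * Ms g) = C0 * Ms g := by
        linear_combination C0 * Ms g * hEE
      rw [e3] at e2
      exact e2
    have h6 : |c * m2| * Real.exp h ≤ K := by
      have e1 : |c * m2| * Real.exp h = |c * m2 * Real.exp h| := by
        rw [abs_mul (c * m2), abs_of_pos (Real.exp_pos h)]
      rw [e1]
      have e2 := abs_sub_abs_le_abs_sub (c * m2 * Real.exp h) (Real.exp (-h) * Sp g P (Real.exp h))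
      rw [abs_sub_comm] at e2
      have e3 := abs_sub_abs_le_abs_sub (Real.exp (-h) * Sp g P (Real.exp h)) (Sw g P 1)
      linarith
    have h7 : K ≤ |c * m2| * h := by
      rw [div_le_iff₀ hpos] at h1
      linarith
    have h8 : |c * m2| * (h + 1) ≤ |c * m2| * Real.exp h :=
      mul_le_mul_of_nonneg_left (Real.add_one_le_exp h) hpos.le
    linarith
  refine ⟨C0, ?_⟩
  intro g R hg hR
  refine le_of_forall_pos_le_add fun ε hε => ?_
  obtain ⟨h, -, h2, h3⟩ := SZ_near hSPW hSN g P hg hP R hR ε 0 hε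
  have hexp1 : 1 ≤ Real.exp h := by
    have := Real.add_one_le_exp h
    linarith
  have h4 := hc g (R * Real.exp h) hg (by nlinarith)
  rw [hc0, zero_mul, zero_mul, sub_zero] at h4
  have hE : 0 < Real.exp (-h) := Real.exp_pos _
  have hEE : Real.exp (-h) * Real.exp h = 1 := by
    rw [← Real.exp_add, neg_add_cancel, Real.exp_zero]
  have h5 : |Real.exp (-h) * Sp g P (R * Real.exp h)| ≤ C0 * R * Ms g := by
    rw [abs_mul, abs_of_pos hE]
    have e2 := mul_le_mul_of_nonneg_left h4 hE.le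
    have e3 : Real.exp (-h) * (C0 * (R * Real.exp h) * Ms g) = C0 * R * Ms g := by
      linear_combination C0 * R * Ms g * hEE
    rw [e3] at e2
    exact e2
  have e4 := abs_sub_abs_le_abs_sub (Sw g P R) (Real.exp (-h) * Sp g P (R * Real.exp h))
  rw [abs_sub_comm] at e4
  linarith

end SF
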