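import Pool.Agent.helper72.SF.SpecT
import Pool.Agent.helper43.AM.XI

/-!
Project SF, module T4: trace triples of the indices
-/

set_option autoImplicit false

namespace SF

open Pool.Agent.helper72.Sq AM Matrix

theorem T4_tr (A B : SpecialLinearGroup (Fin 2) ℝ) : tr (B * A⁻¹) = tr A * tr B - tr (A * B) := by
  have h := tr_mul_mul A⁻¹ (A * B)
  rw [inv_mul_cancel_left, tr_inv] at h
  rw [tr_comm, h]

theorem T4_qt (ρ : F2 →* SpecialLinearGroup (Fin 2) ℝ) (x : F2 × F2) :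
    trTri ρ (qt x) = Tw (trTri ρ x) := by
  refine Prod.ext rfl (Prod.ext ?_ ?_)
  · show tr (ρ x.1⁻¹) = tr (ρ x.1)
    rw [map_inv, tr_inv]
  · show tr (ρ (x.2 * x.1⁻¹)) = tr (ρ x.1) * tr (ρ x.2) - tr (ρ (x.1 * x.2))
    rw [map_mul, map_inv, map_mul, T4_tr]

theorem T4_Tw (P : Tri) : Tw (Tw P) = P := by
  refine Prod.ext rfl (Prod.ext rfl ?_)
  show P.2.1 * P.1 - (P.1 * P.2.1 - P.2.2) = P.2.2
  ring

theorem T4 : T4_stmt := by
  intro ρ ε w τ Q
  have hQe : trTri ρ (pd w (rootp ε)) = Q := by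
    rw [XI_pd, XI_root]
  constructor
  · intro hτ
    fin_cases τ
    · exact hQe
    · simp at hτ
    · show trTri ρ (qt (qt (pd w (rootp ε)))) = Q
      rw [T4_qt, T4_qt, T4_Tw, hQe]
    · simp at hτ
  · intro hτ
    fin_cases τ
    · simp at hτ
    · show trTri ρ (qt (pd w (rootp ε))) = Tw Q
      rw [T4_qt, hQe]
    · simp at hτ
    · show trTri ρ (qt (qt (qt (pd w (rootp ε))))) = Tw Q
      rw [T4_qt, T4_qt, T4_qt, T4_Tw, hQe]

end SF
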